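import Pool.Agent.SPN.Fin

/-! # MP_613dde_gt: planar simple triods without hooks -/

namespace Pool.Agent.Results.MP_613dde_gt.NoHooks

open Pool.Agent.SPN

/-- If `R` is smaller than the span of a planar simple triod `X` and no leg of `X` has a hook at the
scale `R`, then `R` is at most the surjective span of `X`. -/
theorem result (X : Set ℂ) (γ : Fin 3 → ℝ → ℂ) (h : Triod X γ) (R : ℝ) (hR : R < spn X)
    (hH : ∀ i, NoHook R (γ i)) : R ≤ sspn X :=
  main_hook h hR hH

end Pool.Agent.Results.MP_613dde_gt.NoHooks
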